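import Pool.Agent.H25.GD.Targets

/-! Row W_MEA of the board `gd_modules`: the measure of a monotone continuous function. -/

set_option autoImplicit false

namespace Pool.Agent.H11.GD

open MeasureTheory Pool.Agent.H44.DU

theorem pf_W_MEA : W_MEA := by
  intro p hm hc
  let F : StieltjesFunction ℝ := ⟨p, hm, fun x => hc.continuousWithinAt⟩
  have hF : ∀ x, F x = p x := fun _ => rfl
  refine ⟨F.measure, fun x y _ => ?_, ?_, ?_⟩
  · rw [F.measure_Ioc, hF, hF]
  · infer_instance
  · refine ⟨fun x => ?_⟩
    rw [F.measure_singleton]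
    have h0 : ContinuousWithinAt F (Set.Iic x) x := hc.continuousWithinAt
    have h1 : Function.leftLim F x = F x := h0.leftLim_eq
    rw [h1, sub_self, ENNReal.ofReal_zero]

end Pool.Agent.H11.GD
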